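import Pool.Agent.Y79.IA3

/-!
# MP_df4ecf_al, Q2: the graded Lie ring of `IA_3` is not quadratic

The graded Lie ring `E_0^*(IA_3)` of the lower central series of `IA_3` is not a free Lie algebra
modulo quadratic relations. Let `t`, `c`, `c'` be the classes of `x₁ ↦ x₁ w`, `x₁ ↦ x₂ x₁ x₂⁻¹`,
`x₁ ↦ x₃ x₁ x₃⁻¹`, where `w = x₃⁻¹ x₂⁻¹ x₃ x₂`. Then `[t, [c, c']] = 0`, and this cubic relation does
not follow from quadratic relations.
-/

set_option autoImplicit false

namespace Pool.Agent.Results.MP_df4ecf_al.IAThreeNotQuadratic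

open BurnLie

open Pool.Agent.Y79.IA3 (IA)

variable (G : Type) [Group G]

/-- The free Lie ring on the underlying set of `V = G/[G,G]`, the degree one part of `E_0^*(G)`. The
free Lie ring `L[V]` on the abelian group `V` is its quotient by `additivity G`. -/
abbrev FreeOn : Type := FreeLieAlgebra ℤ (Grd G 0)

/-- The additivity relations. -/
def additivity : Set (FreeOn G) :=
  {x | ∃ v w : Grd G 0, x = FreeLieAlgebra.of ℤ (v + w) - FreeLieAlgebra.of ℤ v
    - FreeLieAlgebra.of ℤ w}

/-- The elements of degree two: sums of brackets of two elements of `V`. -/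
noncomputable def degreeTwo : AddSubgroup (FreeOn G) :=
  AddSubgroup.closure {x | ∃ v w : Grd G 0, x = ⁅FreeLieAlgebra.of ℤ v, FreeLieAlgebra.of ℤ w⁆}

/-- The ideal generated by the additivity relations and by `S`; the quotient by it is the quotient
of `L[V]` by the ideal generated by the image of `S`. -/
noncomputable def relations (S : Set (FreeOn G)) : LieIdeal ℤ (FreeOn G) :=
  LieSubmodule.lieSpan ℤ (FreeOn G) (additivity G ∪ S)

/-- `E_0^*(G)` is isomorphic, by an isomorphism which maps the degree one part to the degree one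
part, to the quotient of `L[V]` by the ideal generated by a set of elements of degree two. -/
def IsFreeModuloQuadratic : Prop :=
  ∃ S : Set (FreeOn G), (∀ s ∈ S, s ∈ degreeTwo G) ∧
    ∃ e : (FreeOn G ⧸ relations G S) ≃ₗ⁅ℤ⁆ AssocLie G,
      ∀ v : Grd G 0, ∃ v' : Grd G 0,
        e (LieSubmodule.Quotient.mk (FreeLieAlgebra.of ℤ v)) = ofL 0 v'

/-- The natural homomorphism, which is the identity on `V`. -/
noncomputable def natural : FreeOn G →ₗ⁅ℤ⁆ AssocLie G :=
  FreeLieAlgebra.lift ℤ fun v : Grd G 0 => (ofL 0 v : AssocLie G)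

/-- The kernel of the natural map `L[V] → E_0^*(G)` is generated, as an ideal, by elements of
degree two. -/
def KernelGeneratedInDegreeTwo : Prop :=
  ∃ S : Set (FreeOn G), (∀ s ∈ S, s ∈ degreeTwo G) ∧ (natural G).ker = relations G S

/-- `E_0^*(IA_3)` is not a free Lie algebra modulo quadratic relations. -/
theorem result : ¬ IsFreeModuloQuadratic (IA 3) ∧ ¬ KernelGeneratedInDegreeTwo (IA 3) := by
  constructor
  · rintro ⟨S, hS, e, he⟩
    choose α hα using he
    let q : FreeOn (IA 3) →ₗ⁅ℤ⁆ (FreeOn (IA 3) ⧸ relations (IA 3) S) :=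
      { toFun := LieSubmodule.Quotient.mk
        map_add' := fun _ _ => rfl
        map_smul' := fun _ _ => rfl
        map_lie' := fun {x y} => rfl }
    let Φ : FreeOn (IA 3) →ₗ⁅ℤ⁆ AssocLie (IA 3) := (e : _ →ₗ⁅ℤ⁆ AssocLie (IA 3)).comp q
    have hker : ∀ z, Φ z = 0 ↔ z ∈ relations (IA 3) S := by
      intro z
      show e (LieSubmodule.Quotient.mk z) = 0 ↔ _
      rw [← LieSubmodule.Quotient.mk_eq_zero']
      constructor
      · intro h
        exact e.injective (h.trans (map_zero e).symm)
      · intro h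
        rw [h, map_zero]
    have hΦ : Function.Surjective Φ := by
      intro y
      obtain ⟨x, rfl⟩ := e.surjective y
      obtain ⟨z, rfl⟩ := Submodule.Quotient.mk_surjective _ x
      exact ⟨z, rfl⟩
    exact Y79.IA3.main Φ α hα S hker hS (Y79.IA3.alpha_surj Φ α hα S hker hΦ)
  · rintro ⟨S, hS, h⟩
    refine Y79.IA3.main (natural (IA 3)) id (fun v => FreeLieAlgebra.lift_of_apply _ v) S ?_ hS
      (fun u => ⟨u, rfl⟩)
    intro z
    have h1 : z ∈ (natural (IA 3)).ker ↔ z ∈ relations (IA 3) S := by rw [h]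
    rw [LieHom.mem_ker] at h1
    exact h1

end Pool.Agent.Results.MP_df4ecf_al.IAThreeNotQuadratic
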